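import Mathlib

/-!
# Relative Maharam lemma: sets with prescribed conditional probability
-/

namespace Mah

open MeasureTheory Filter Set
open scoped ENNReal symmDiff

variable {Ω : Type*} {m : MeasurableSpace Ω} {m0 : MeasurableSpace Ω} {μ : Measure Ω}

/-- indicator function of a set, real valued -/
noncomputable def ind (A : Set Ω) : Ω → ℝ := A.indicator fun _ => (1 : ℝ)

/-- conditional probability of a set -/
noncomputable def cp (m : MeasurableSpace Ω) {m0 : MeasurableSpace Ω} (μ : Measure Ω)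
    (A : Set Ω) : Ω → ℝ := μ[ind A|m]

theorem ind_integrable [IsFiniteMeasure μ] {A : Set Ω} (hA : MeasurableSet A) :
    Integrable (ind A) μ := (integrable_const (1 : ℝ)).indicator hA

theorem cp_sm (A : Set Ω) : StronglyMeasurable[m] (cp m μ A) := stronglyMeasurable_condExp

theorem cp_int (A : Set Ω) : Integrable (cp m μ A) μ := integrable_condExp

theorem cp_nonneg (A : Set Ω) : 0 ≤ᵐ[μ] cp m μ A :=
  condExp_nonneg (Eventually.of_forall fun x => Set.indicator_nonneg (fun _ _ => zero_le_one) x)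

theorem ind_le_one (A : Set Ω) (x : Ω) : ind A x ≤ 1 :=
  Set.indicator_le_self' (fun _ _ => zero_le_one) x

theorem cp_univ (hm : m ≤ m0) [IsFiniteMeasure μ] : cp m μ univ =ᵐ[μ] fun _ => (1 : ℝ) := by
  unfold cp ind
  rw [Set.indicator_univ, condExp_const hm]

theorem cp_mono [IsFiniteMeasure μ] {A B : Set Ω} (hA : MeasurableSet A) (hB : MeasurableSet B)
    (h : A ⊆ B) : cp m μ A ≤ᵐ[μ] cp m μ B :=
  condExp_mono (ind_integrable hA) (ind_integrable hB)
    (Eventually.of_forall fun x => Set.indicator_le_indicator_of_subset h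
      (fun _ => zero_le_one) x)

theorem cp_le_one (hm : m ≤ m0) [IsFiniteMeasure μ] {A : Set Ω} (hA : MeasurableSet A) :
    cp m μ A ≤ᵐ[μ] fun _ => (1 : ℝ) :=
  (cp_mono hA MeasurableSet.univ (subset_univ A)).trans (cp_univ hm).le

theorem cp_union [IsFiniteMeasure μ] {A B : Set Ω} (hA : MeasurableSet A) (hB : MeasurableSet B)
    (h : Disjoint A B) : cp m μ (A ∪ B) =ᵐ[μ] cp m μ A + cp m μ B := by
  have h1 : ind (A ∪ B) = ind A + ind B := by
    unfold ind
    rw [Set.indicator_union_of_disjoint h]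
    rfl
  unfold cp
  rw [h1]
  exact condExp_add (ind_integrable hA) (ind_integrable hB) m

theorem cp_diff [IsFiniteMeasure μ] {A B : Set Ω} (hA : MeasurableSet A) (hB : MeasurableSet B)
    (h : B ⊆ A) : cp m μ (A \ B) =ᵐ[μ] cp m μ A - cp m μ B := by
  have h1 := cp_union (m := m) (μ := μ) (hA.diff hB) hB disjoint_sdiff_left
  rw [Set.sdiff_union_of_subset h] at h1
  filter_upwards [h1] with x hx
  simp only [Pi.add_apply, Pi.sub_apply] at hx ⊢
  linarith

theorem cp_inter [IsFiniteMeasure μ] {A B : Set Ω} (hA : MeasurableSet A)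
    (hB : MeasurableSet[m] B) : cp m μ (A ∩ B) =ᵐ[μ] B.indicator (cp m μ A) := by
  have h1 : ind (A ∩ B) = B.indicator (ind A) := by
    unfold ind
    rw [Set.indicator_indicator, Set.inter_comm]
  unfold cp
  rw [h1]
  exact condExp_indicator (ind_integrable hA) hB

theorem cp_setIntegral (hm : m ≤ m0) [IsFiniteMeasure μ] {A B : Set Ω} (hA : MeasurableSet A)
    (hB : MeasurableSet[m] B) : ∫ x in B, cp m μ A x ∂μ = μ.real (A ∩ B) := by
  unfold cp
  rw [setIntegral_condExp hm (ind_integrable hA) hB]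
  unfold ind
  rw [setIntegral_indicator hA, setIntegral_const, smul_eq_mul, mul_one, Set.inter_comm]

theorem cp_of_null [IsFiniteMeasure μ] {A : Set Ω} (h : μ A = 0) : cp m μ A =ᵐ[μ] 0 := by
  have h1 : ind A =ᵐ[μ] 0 := by
    have : A =ᵐ[μ] (∅ : Set Ω) := ae_eq_empty.2 h
    have h2 := indicator_ae_eq_of_ae_eq_set (f := fun _ => (1 : ℝ)) this
    rw [Set.indicator_empty] at h2
    exact h2
  exact (condExp_congr_ae h1).trans (by rw [condExp_zero])

theorem cp_congr [IsFiniteMeasure μ] {A B : Set Ω} (h : A =ᵐ[μ] B) :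
    cp m μ A =ᵐ[μ] cp m μ B :=
  condExp_congr_ae (indicator_ae_eq_of_ae_eq_set h)

/-- if the conditional probability vanishes on an `m`-measurable set `B`, then `A ∩ B` is null -/
theorem null_of_cp (hm : m ≤ m0) [IsFiniteMeasure μ] {A B : Set Ω} (hA : MeasurableSet A)
    (hB : MeasurableSet[m] B) (h : ∀ᵐ x ∂μ, x ∈ B → cp m μ A x = 0) : μ (A ∩ B) = 0 := by
  have h1 := cp_setIntegral hm hA hB (μ := μ)
  rw [setIntegral_congr_ae (g := fun _ => (0 : ℝ)) (hm _ hB) h] at h1
  simp only [integral_zero] at h1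
  exact (measureReal_eq_zero_iff).1 h1.symm

theorem cp_eq_of_inter (hm : m ≤ m0) [IsFiniteMeasure μ] {A : Set Ω} (hA : MeasurableSet A)
    {c : ℝ} (h : cp m μ A =ᵐ[μ] fun _ => c) {B : Set Ω} (hB : MeasurableSet[m] B) :
    μ.real (A ∩ B) = c * μ.real B := by
  rw [← cp_setIntegral hm hA hB, setIntegral_congr_ae (g := fun _ => c) (hm _ hB)
    (h.mono fun x hx _ => hx), setIntegral_const, smul_eq_mul, mul_comm]

/-- exhaustion -/
theorem exists_max [IsFiniteMeasure μ] (P : Set Ω → Prop) {A0 : Set Ω} (h0 : P A0)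
    (hmeas : ∀ A, P A → MeasurableSet A)
    (hU : ∀ A : ℕ → Set Ω, (∀ n, P (A n)) → (∀ n, A n ⊆ A (n + 1)) → P (⋃ n, A n)) :
    ∃ A, P A ∧ A0 ⊆ A ∧ ∀ D, P D → A ⊆ D → μ (D \ A) = 0 := by
  classical
  -- greedy step
  have step : ∀ A, P A → ∃ A', P A' ∧ A ⊆ A' ∧ ∀ D, P D → A ⊆ D →
      μ.real (D \ A) ≤ 2 * μ.real (A' \ A) := by
    intro A hA
    let S : Set ℝ := {r | ∃ D, P D ∧ A ⊆ D ∧ r = μ.real (D \ A)}
    have hS : BddAbove S := ⟨μ.real univ, by
      rintro r ⟨D, -, -, rfl⟩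
      exact measureReal_mono (subset_univ _)⟩
    have hS1 : (0 : ℝ) ∈ S := ⟨A, hA, Subset.rfl, by simp⟩
    have hS0 : 0 ≤ sSup S := le_csSup hS hS1
    by_cases h : sSup S = 0
    · refine ⟨A, hA, Subset.rfl, fun D hD hAD => ?_⟩
      have : μ.real (D \ A) ≤ sSup S := le_csSup hS ⟨D, hD, hAD, rfl⟩
      simp [h] at this ⊢
      exact this
    · have hpos : 0 < sSup S := lt_of_le_of_ne hS0 (Ne.symm h)
      obtain ⟨r, ⟨A', hA', hAA', rfl⟩, hr⟩ := exists_lt_of_lt_csSup ⟨0, hS1⟩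
        (show sSup S / 2 < sSup S by linarith)
      refine ⟨A', hA', hAA', fun D hD hAD => ?_⟩
      have : μ.real (D \ A) ≤ sSup S := le_csSup hS ⟨D, hD, hAD, rfl⟩
      linarith
  choose f hf using step
  let s : ℕ → {A : Set Ω // P A} := fun n => Nat.rec ⟨A0, h0⟩
    (fun _ A => ⟨f A.1 A.2, (hf A.1 A.2).1⟩) n
  have hs : ∀ n, (s (n + 1)).1 = f (s n).1 (s n).2 := fun n => rfl
  have hmono : ∀ n, (s n).1 ⊆ (s (n + 1)).1 := fun n => (hf _ _).2.1
  have hmono' : Monotone fun n => (s n).1 := monotone_nat_of_le_succ hmono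
  refine ⟨⋃ n, (s n).1, hU _ (fun n => (s n).2) hmono, subset_iUnion (fun n => (s n).1) 0,
    fun D hD hAD => ?_⟩
  have hle : ∀ n, μ.real (D \ ⋃ n, (s n).1) ≤ 2 * μ.real ((s (n + 1)).1 \ (s n).1) := by
    intro n
    have h1 := (hf _ (s n).2).2.2 D hD ((subset_iUnion (fun n => (s n).1) n).trans hAD)
    refine le_trans (measureReal_mono ?_) h1
    exact sdiff_subset_sdiff_right (subset_iUnion (fun n => (s n).1) n)
  -- the increments tend to zero
  have hlim : Tendsto (fun n => μ.real (s n).1) atTop (nhds (μ.real (⋃ n, (s n).1))) := by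
    have := tendsto_measure_iUnion_atTop (μ := μ) hmono'
    exact (ENNReal.tendsto_toReal (measure_ne_top _ _)).comp this
  have hlim2 : Tendsto (fun n => 2 * μ.real ((s (n + 1)).1 \ (s n).1)) atTop (nhds 0) := by
    have h1 : ∀ n, μ.real ((s (n + 1)).1 \ (s n).1) = μ.real (s (n + 1)).1 - μ.real (s n).1 :=
      fun n => measureReal_sdiff (hmono n) (hmeas _ (s n).2)
    simp only [h1]
    have h2 := ((hlim.comp (tendsto_add_atTop_nat 1)).sub hlim).const_mul 2
    simpa using h2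
  have h3 : μ.real (D \ ⋃ n, (s n).1) ≤ 0 := ge_of_tendsto' hlim2 hle
  exact (measureReal_eq_zero_iff).1 (le_antisymm h3 measureReal_nonneg)

end Mah
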